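import Pool.Agent.KS6_9.WC.Loc

/-!
# The weak cancellation law in locally nilpotent groups

A locally nilpotent group satisfies the weak cancellation law if and only if it is almost
torsion-free and every `y` has, for all `n > 0`, only finitely many conjugates by elements of finite
order commuting with `y ^ n`.  Groups all of whose two-generator subgroups are nilpotent of bounded
class, in particular nilpotent groups, satisfy it as soon as they are almost torsion-free; but there
is a countable, hypercentral, locally nilpotent group with an abelian subgroup of index two which is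
almost torsion-free and does not satisfy it.
-/

set_option autoImplicit false

namespace Pool.Agent.Results.MP_1cb079_al.LocallyNilpotentCriterion

open Pool.Agent.KS6_9.WC Subgroup

universe u

/-- **The weak cancellation law in locally nilpotent groups.**
(1) The criterion. (2) The answer to the question, for all groups whose two-generator subgroups are
nilpotent of bounded class. (3) In particular for nilpotent groups. (4) The answer is negative for
hypercentral groups, even if they have an abelian subgroup of index two. -/
theorem result :
    (∀ (G : Type u) [Group G], LocallyNilpotent G →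
      (WCL G ↔ AlmostTorsionFree G ∧ FewConjugates G)) ∧
    (∀ (G : Type u) [Group G] (c : ℕ),
      (∀ x y : G, (⊤ : Subgroup (closure {x, y})).lowerCentralSeries c = ⊥) →
      AlmostTorsionFree G → WCL G) ∧
    (∀ (G : Type u) [Group G], Group.IsNilpotent G → AlmostTorsionFree G → WCL G) ∧
    ∃ (G : Type) (_ : Group G), Countable G ∧ Hypercentral G ∧ LocallyNilpotent G ∧
      (∃ H : Subgroup G, H.index = 2 ∧ ∀ a ∈ H, ∀ b ∈ H, a * b = b * a) ∧
      AlmostTorsionFree G ∧ ∃ y : G, {x : G | x ^ 2 = y}.Infinite := by
  have two : ∀ (G : Type u) [Group G] (c : ℕ),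
      (∀ x y : G, (⊤ : Subgroup (closure {x, y})).lowerCentralSeries c = ⊥) →
      AlmostTorsionFree G → WCL G := by
    intro G _ c hc hG n hn z
    rcases Set.eq_empty_or_nonempty {x : G | x ^ n = z} with h | ⟨y, hy⟩
    · rw [h]; exact Set.finite_empty
    refine ((hG (n ^ c) (pow_pos hn c)).image (· * y)).subset fun x hx => ⟨x * y⁻¹, ?_, by simp⟩
    have hx' : x ∈ closure ({x, y} : Set G) := subset_closure (by simp)
    have hy' : y ∈ closure ({x, y} : Set G) := subset_closure (by simp)
    have hS : closure ({⟨x, hx'⟩, ⟨y, hy'⟩} : Set (closure ({x, y} : Set G))) = ⊤ := by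
      rw [← closure_closure_coe_preimage]
      congr 1
      ext g
      simp [Subtype.ext_iff]
    have := Pool.Agent.Results.MP_1cb079_al.WCL.key n c (hc x y) ⟨x, hx'⟩ ⟨y, hy'⟩ hS
      (Subtype.ext (hx.trans hy.symm))
    exact congrArg Subtype.val this
  refine ⟨fun G _ hG => wcl_iff hG, two, fun G _ hG => ?_, Ex, inferInstance, countable, hyper,
    locNil, virt, atf, _, not_wcl⟩
  obtain ⟨c, hc⟩ := Subgroup.nilpotent_iff_lowerCentralSeries.1 hG
  refine two G c fun x y => ?_
  rw [← map_eq_bot_iff_of_injective _ (closure ({x, y} : Set G)).subtype_injective,
    top_subtype_lowerCentralSeries, eq_bot_iff, ← hc]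
  exact lowerCentralSeries_mono c le_top

end Pool.Agent.Results.MP_1cb079_al.LocallyNilpotentCriterion
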